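import Mathlib

/-!
# Hom-Ext quivers of exceptional collections: definitions

Representations of a finite quiver over a field, their morphisms and first extension groups, and
the Hom-Ext quivers of a family of representations, with all their relations.
-/

set_option autoImplicit false

namespace Pool.Agent.K7.H93.HE

universe u

/-- A finite quiver: vertices `V`, arrows `A`, the arrow `a` goes from `s a` to `t a`. -/
structure FinQuiver where
  V : Type
  A : Type
  [finV : Finite V]
  [finA : Finite A]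
  s : A → V
  t : A → V

/-- `Q` is acyclic: the vertices can be numbered so that the numbers increase along all arrows. -/
def FinQuiver.Acyclic (Q : FinQuiver) : Prop :=
  ∃ h : Q.V → ℕ, ∀ a, h (Q.s a) < h (Q.t a)

/-- A finite-dimensional representation of `Q` over `k`, that is, a finite-dimensional module over
the path algebra. -/
structure Rep (k : Type u) [Field k] (Q : FinQuiver) where
  obj : Q.V → Type u
  [grp : ∀ v, AddCommGroup (obj v)]
  [mod : ∀ v, Module k (obj v)]
  [fin : ∀ v, FiniteDimensional k (obj v)]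
  map : ∀ a, obj (Q.s a) →ₗ[k] obj (Q.t a)

attribute [instance] Rep.grp Rep.mod Rep.fin

variable {k : Type u} [Field k] {Q : FinQuiver}

/-- families of linear maps `M_v → N_v`, one for each vertex -/
def C0 (M N : Rep k Q) : Type u := ∀ v, M.obj v →ₗ[k] N.obj v

/-- families of linear maps `M_(s a) → N_(t a)`, one for each arrow -/
def C1 (M N : Rep k Q) : Type u := ∀ a, M.obj (Q.s a) →ₗ[k] N.obj (Q.t a)

instance C0.grp (M N : Rep k Q) : AddCommGroup (C0 M N) := Pi.addCommGroup

instance C0.mod (M N : Rep k Q) : Module k (C0 M N) := Pi.module _ _ _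

instance C1.grp (M N : Rep k Q) : AddCommGroup (C1 M N) := Pi.addCommGroup

instance C1.mod (M N : Rep k Q) : Module k (C1 M N) := Pi.module _ _ _

/-- the family `(N_a f_(s a) - f_(t a) M_a)_a` -/
def dl (M N : Rep k Q) (f : C0 M N) : C1 M N :=
  fun a => N.map a ∘ₗ f (Q.s a) - f (Q.t a) ∘ₗ M.map a

theorem dl_add (M N : Rep k Q) (f g : C0 M N) : dl M N (f + g) = dl M N f + dl M N g := by
  funext a
  change N.map a ∘ₗ (f (Q.s a) + g (Q.s a)) - (f (Q.t a) + g (Q.t a)) ∘ₗ M.map a =
    (N.map a ∘ₗ f (Q.s a) - f (Q.t a) ∘ₗ M.map a) + (N.map a ∘ₗ g (Q.s a) - g (Q.t a) ∘ₗ M.map a)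
  rw [LinearMap.comp_add, LinearMap.add_comp]
  abel

theorem dl_smul (M N : Rep k Q) (c : k) (f : C0 M N) : dl M N (c • f) = c • dl M N f := by
  funext a
  change N.map a ∘ₗ (c • f (Q.s a)) - (c • f (Q.t a)) ∘ₗ M.map a =
    c • (N.map a ∘ₗ f (Q.s a) - f (Q.t a) ∘ₗ M.map a)
  rw [LinearMap.comp_smul, LinearMap.smul_comp, smul_sub]

/-- the map `f ↦ (N_a f_(s a) - f_(t a) M_a)_a`, whose kernel is `Hom (M, N)` and whose cokernel is
`Ext¹ (M, N)` -/
def delta (M N : Rep k Q) : C0 M N →ₗ[k] C1 M N where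
  toFun := dl M N
  map_add' := dl_add M N
  map_smul' := dl_smul M N

/-- the morphisms from `M` to `N` -/
def Hom (M N : Rep k Q) : Type u := LinearMap.ker (delta M N)

instance Hom.grp (M N : Rep k Q) : AddCommGroup (Hom M N) :=
  Submodule.addCommGroup (LinearMap.ker (delta M N))

instance Hom.mod (M N : Rep k Q) : Module k (Hom M N) :=
  Submodule.module (LinearMap.ker (delta M N))

/-- the first extension group of `M` by `N`: an extension `0 → N → E → M → 0` with `E_v = N_v × M_v`
has the maps `(n, m) ↦ (N_a n + c_a m, M_a m)` for some family `c` in `C1 M N`, and two families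
give equivalent extensions if and only if their difference is in the image of `delta`. -/
def Ext1 (M N : Rep k Q) : Type u := C1 M N ⧸ LinearMap.range (delta M N)

instance Ext1.grp (M N : Rep k Q) : AddCommGroup (Ext1 M N) :=
  Submodule.Quotient.addCommGroup (LinearMap.range (delta M N))

instance Ext1.mod (M N : Rep k Q) : Module k (Ext1 M N) :=
  Submodule.Quotient.module (LinearMap.range (delta M N))

/-- the linear map of a morphism at the vertex `v` -/
def Hom.app {M N : Rep k Q} (f : Hom M N) (v : Q.V) : M.obj v →ₗ[k] N.obj v := f.1 v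

theorem mem_ker {M N : Rep k Q} (f : C0 M N) :
    f ∈ LinearMap.ker (delta M N) ↔ ∀ a, N.map a ∘ₗ f (Q.s a) = f (Q.t a) ∘ₗ M.map a := by
  rw [LinearMap.mem_ker]
  constructor
  · intro h a
    exact sub_eq_zero.1 (congrFun h a)
  · intro h
    funext a
    exact sub_eq_zero.2 (h a)

theorem id_mem (M : Rep k Q) :
    (fun _ => LinearMap.id : C0 M M) ∈ LinearMap.ker (delta M M) :=
  (mem_ker _).2 fun a => by rw [LinearMap.comp_id, LinearMap.id_comp]

/-- the identity -/
def idHom (M : Rep k Q) : Hom M M := ⟨fun _ => LinearMap.id, id_mem M⟩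

theorem comp_mem {M N P : Rep k Q} (g : Hom N P) (f : Hom M N) :
    (fun v => g.app v ∘ₗ f.app v : C0 M P) ∈ LinearMap.ker (delta M P) :=
  (mem_ker _).2 fun a => by
    change P.map a ∘ₗ (g.1 (Q.s a) ∘ₗ f.1 (Q.s a)) = (g.1 (Q.t a) ∘ₗ f.1 (Q.t a)) ∘ₗ M.map a
    rw [← LinearMap.comp_assoc, (mem_ker g.1).1 g.2 a, LinearMap.comp_assoc,
      (mem_ker f.1).1 f.2 a, LinearMap.comp_assoc]

/-- composition of morphisms, `compHom g f` is `f` followed by `g` -/
def compHom {M N P : Rep k Q} (g : Hom N P) (f : Hom M N) : Hom M P :=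
  ⟨fun v => g.app v ∘ₗ f.app v, comp_mem g f⟩

/-- the family of maps `g_(t a) c_a` -/
def push1 {M N P : Rep k Q} (g : Hom N P) (c : C1 M N) : C1 M P := fun a => g.app (Q.t a) ∘ₗ c a

theorem push1_add {M N P : Rep k Q} (g : Hom N P) (c d : C1 M N) :
    push1 g (c + d) = push1 g c + push1 g d := by
  funext a
  exact LinearMap.comp_add _ _ _

theorem push1_smul {M N P : Rep k Q} (g : Hom N P) (r : k) (c : C1 M N) :
    push1 g (r • c) = r • push1 g c := by
  funext a
  exact LinearMap.comp_smul _ _ _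

/-- `push1` as a linear map -/
def push2 {M N P : Rep k Q} (g : Hom N P) : C1 M N →ₗ[k] C1 M P where
  toFun := push1 g
  map_add' := push1_add g
  map_smul' := push1_smul g

theorem push1_le {M N P : Rep k Q} (g : Hom N P) :
    LinearMap.range (delta M N) ≤ (LinearMap.range (delta M P)).comap (push2 g) := by
  rintro _ ⟨h, rfl⟩
  refine ⟨fun v => g.1 v ∘ₗ h v, ?_⟩
  funext a
  change P.map a ∘ₗ (g.1 (Q.s a) ∘ₗ h (Q.s a)) - (g.1 (Q.t a) ∘ₗ h (Q.t a)) ∘ₗ M.map a =
    g.1 (Q.t a) ∘ₗ (N.map a ∘ₗ h (Q.s a) - h (Q.t a) ∘ₗ M.map a)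
  rw [← LinearMap.comp_assoc, (mem_ker g.1).1 g.2 a, LinearMap.comp_sub,
    LinearMap.comp_assoc, LinearMap.comp_assoc]

/-- the push-out of extensions of `M` by `N` along `g : N → P` -/
def push {M N P : Rep k Q} (g : Hom N P) : Ext1 M N →ₗ[k] Ext1 M P :=
  Submodule.mapQ _ _ (push2 g) (push1_le g)

/-- the family of maps `c_a f_(s a)` -/
def pull1 {M N P : Rep k Q} (f : Hom M N) (c : C1 N P) : C1 M P := fun a => c a ∘ₗ f.app (Q.s a)

theorem pull1_add {M N P : Rep k Q} (f : Hom M N) (c d : C1 N P) :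
    pull1 f (c + d) = pull1 f c + pull1 f d := by
  funext a
  exact LinearMap.add_comp _ _ _

theorem pull1_smul {M N P : Rep k Q} (f : Hom M N) (r : k) (c : C1 N P) :
    pull1 f (r • c) = r • pull1 f c := by
  funext a
  exact LinearMap.smul_comp _ _ _

/-- `pull1` as a linear map -/
def pull2 {M N P : Rep k Q} (f : Hom M N) : C1 N P →ₗ[k] C1 M P where
  toFun := pull1 f
  map_add' := pull1_add f
  map_smul' := pull1_smul f

theorem pull1_le {M N P : Rep k Q} (f : Hom M N) :
    LinearMap.range (delta N P) ≤ (LinearMap.range (delta M P)).comap (pull2 f) := by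
  rintro _ ⟨h, rfl⟩
  refine ⟨fun v => h v ∘ₗ f.1 v, ?_⟩
  funext a
  change P.map a ∘ₗ (h (Q.s a) ∘ₗ f.1 (Q.s a)) - (h (Q.t a) ∘ₗ f.1 (Q.t a)) ∘ₗ M.map a =
    (P.map a ∘ₗ h (Q.s a) - h (Q.t a) ∘ₗ N.map a) ∘ₗ f.1 (Q.s a)
  rw [LinearMap.sub_comp, LinearMap.comp_assoc, LinearMap.comp_assoc, LinearMap.comp_assoc,
    (mem_ker f.1).1 f.2 a]

/-- the pull-back of extensions of `N` by `P` along `f : M → N` -/
def pull {M N P : Rep k Q} (f : Hom M N) : Ext1 N P →ₗ[k] Ext1 M P :=
  Submodule.mapQ _ _ (pull2 f) (pull1_le f)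

/-- `f` is an isomorphism -/
def IsIso {M N : Rep k Q} (f : Hom M N) : Prop := ∀ v, Function.Bijective (f.app v)

/-- `M` is indecomposable: it is not zero, and if it is the direct sum of two subrepresentations `U`
and `W`, then `U = 0` or `W = 0`. -/
def Indecomposable (M : Rep k Q) : Prop :=
  (∃ v, Nontrivial (M.obj v)) ∧
  ∀ U W : ∀ v, Submodule k (M.obj v),
    (∀ a, ∀ x ∈ U (Q.s a), M.map a x ∈ U (Q.t a)) →
    (∀ a, ∀ x ∈ W (Q.s a), M.map a x ∈ W (Q.t a)) →
    (∀ v, IsCompl (U v) (W v)) → (∀ v, U v = ⊥) ∨ (∀ v, W v = ⊥)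

/-- `M` is exceptional -/
def Exceptional (M : Rep k Q) : Prop := Indecomposable M ∧ Subsingleton (Ext1 M M)

/-- `E_1, …, E_m` is an exceptional sequence. -/
def ExceptionalSequence {m : ℕ} (E : Fin m → Rep k Q) : Prop :=
  (∀ i, Exceptional (E i)) ∧
  ∀ i j, j < i → Subsingleton (Hom (E i) (E j)) ∧ Subsingleton (Ext1 (E i) (E j))

/-- the family `X` is an exceptional collection: some ordering of it is an exceptional sequence -/
def ExceptionalCollection {ι : Type} (X : ι → Rep k Q) : Prop :=
  ∃ (m : ℕ) (e : Fin m ≃ ι), ExceptionalSequence fun i => X (e i)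

variable {ι : Type}

/-- the radical morphisms from `X i` to `X j` (for indecomposable modules: the morphisms which are
not isomorphisms) -/
def radHom (X : ι → Rep k Q) (i j : ι) : Submodule k (Hom (X i) (X j)) :=
  Submodule.span k {f | ¬ IsIso f}

/-- the sums of compositions of two radical morphisms -/
def radHom2 (X : ι → Rep k Q) (i j : ι) : Submodule k (Hom (X i) (X j)) :=
  Submodule.span k {h | ∃ l, ∃ f ∈ radHom X i l, ∃ g ∈ radHom X l j, h = compHom g f}

/-- the sums of the extensions which are obtained from extensions between members of the family by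
push-out or pull-back along radical morphisms -/
def radExt2 (X : ι → Rep k Q) (i j : ι) : Submodule k (Ext1 (X i) (X j)) :=
  Submodule.span k {z | (∃ l, ∃ f ∈ radHom X i l, ∃ x : Ext1 (X l) (X j), z = pull f x) ∨
    (∃ l, ∃ g ∈ radHom X l j, ∃ x : Ext1 (X i) (X l), z = push g x)}

/-- the classes of the elements `v a` form a basis of `S` modulo its subspace `T` -/
def BasisMod {V A : Type*} [AddCommGroup V] [Module k V] (v : A → V) (S T : Submodule k V) : Prop :=
  (∀ a, v a ∈ S) ∧ Submodule.span k (Set.range v) ⊔ T = S ∧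
    LinearIndependent k fun a => T.mkQ (v a)

/-- A Hom-Ext quiver of the family `X`: its vertices are the indices, the arrows from `i` to `j`
are morphisms `val0 i j a : X i → X j` and extensions `val1 i j b` in `Ext¹ (X i, X j)`, and they form
a basis of the radical morphisms, and of the extensions, modulo those which factor. -/
structure HomExtQuiver (X : ι → Rep k Q) where
  A0 : ι → ι → Type
  A1 : ι → ι → Type
  val0 : ∀ i j, A0 i j → Hom (X i) (X j)
  val1 : ∀ i j, A1 i j → Ext1 (X i) (X j)
  basis0 : ∀ i j, BasisMod (val0 i j) (radHom X i j) (radHom2 X i j)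
  basis1 : ∀ i j, BasisMod (val1 i j) ⊤ (radExt2 X i j)

namespace HomExtQuiver

variable {X : ι → Rep k Q}

/-- the vertices of the Hom-Ext quiver -/
def Vert (_P : HomExtQuiver X) : Type := ι

instance quiver (P : HomExtQuiver X) : Quiver P.Vert := ⟨fun i j => P.A0 i j ⊕ P.A1 i j⟩

/-- `Hom (X i, X j) × Ext¹ (X i, X j)` -/
def Val (P : HomExtQuiver X) (i j : P.Vert) : Type u := Hom (X i) (X j) × Ext1 (X i) (X j)

instance Val.grp (P : HomExtQuiver X) (i j : P.Vert) : AddCommGroup (P.Val i j) :=
  Prod.instAddCommGroup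

instance Val.mod (P : HomExtQuiver X) (i j : P.Vert) : Module k (P.Val i j) :=
  Prod.instModule

/-- multiplication by an arrow: morphisms are composed, extensions are pushed out or pulled back along
morphisms, and the product of two extensions is zero (it lies in `Ext² = 0`) -/
def step (P : HomExtQuiver X) {i j l : P.Vert} (x : P.Val i j) (a : P.A0 j l ⊕ P.A1 j l) :
    P.Val i l :=
  a.elim (fun a => (compHom (P.val0 j l a) x.1, push (P.val0 j l a) x.2))
    (fun b => (0, pull x.1 (P.val1 j l b)))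

/-- the value in `Hom (X i, X j) × Ext¹ (X i, X j)` of a path from `i` to `j` -/
def eval (P : HomExtQuiver X) {i : P.Vert} : ∀ {j : P.Vert}, Quiver.Path i j → P.Val i j
  | _, Quiver.Path.nil => (idHom (X i), 0)
  | _, Quiver.Path.cons p a => P.step (P.eval p) a

/-- the part from `i` to `j` of the ideal `R` of all relations -/
noncomputable def R (P : HomExtQuiver X) (i j : P.Vert) : Submodule k (Quiver.Path i j →₀ k) :=
  LinearMap.ker (Finsupp.linearCombination k fun p : Quiver.Path i j => P.eval p)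

/-- the part from `i` to `j` of the ideal generated by the paths in `S` -/
noncomputable def pathIdeal (P : HomExtQuiver X) (S : ∀ i j : P.Vert, Set (Quiver.Path i j))
    (i j : P.Vert) : Submodule k (Quiver.Path i j →₀ k) :=
  Submodule.span k {x | ∃ (i' j' : P.Vert) (p : Quiver.Path i i') (q : Quiver.Path i' j')
    (r : Quiver.Path j' j), q ∈ S i' j' ∧ x = Finsupp.single (p.comp (q.comp r)) 1}

/-- the ideal `R` is generated by monomial relations: by a set of paths of length at least two -/
def Monomial (P : HomExtQuiver X) : Prop :=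
  ∃ S : ∀ i j : P.Vert, Set (Quiver.Path i j), (∀ i j, ∀ p ∈ S i j, 2 ≤ p.length) ∧
    ∀ i j, P.R i j = P.pathIdeal S i j

end HomExtQuiver

end Pool.Agent.K7.H93.HE
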