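import Pool.Agent.K7.H93.HE.Square

/-!
# The Hom-Ext quivers of the four representations: the ideal of relations is not monomial
-/

set_option autoImplicit false

namespace Pool.Agent.K7.H93.HE

universe u

variable {k : Type u} [Field k]

theorem ev_id (i : Fin 4) : ev (idHom (X k i)) = 1 := by
  unfold ev co
  rw [dif_pos (supp_three i)]
  rfl

/-- an endomorphism with nonzero scalar is an isomorphism -/
theorem iso_of_ev {i : Fin 4} (f : Hom (X k i) (X k i)) (hf : ev f ≠ 0) : IsIso f := by
  intro v
  have h1 : f.app v = (sc (supp i v) (supp i v) (ev f) : Sp k (supp i v) →ₗ[k] Sp k (supp i v)) :=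
    congrFun (eq_const f) v
  have h2 : ∀ (b : Bool) (c : k), c ≠ 0 → Function.Bijective (sc b b c : Sp k b →ₗ[k] Sp k b) := by
    intro b c hc
    constructor
    · intro x y hxy
      funext j
      have h3 := congrFun hxy j
      have h4 : b = true := j.2
      simp only [sc, LinearMap.coe_mk, AddHom.coe_mk, h4, dif_pos] at h3
      exact mul_left_cancel₀ hc h3
    · intro y
      refine ⟨c⁻¹ • y, ?_⟩
      funext j
      have h4 : b = true := j.2
      simp only [sc, LinearMap.coe_mk, AddHom.coe_mk, h4, dif_pos, Pi.smul_apply, smul_eq_mul]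
      rw [mul_inv_cancel_left₀ hc]
  rw [h1]
  exact h2 _ _ hf

theorem indecomposable (i : Fin 4) : Indecomposable (X k i) := by
  refine ⟨⟨(3 : Fin 4), ?_⟩, ?_⟩
  · refine ⟨⟨(fun _ => 0 : Sp k (supp i 3)), (fun _ => 1 : Sp k (supp i 3)), ?_⟩⟩
    intro h
    exact zero_ne_one (congrFun h ⟨(), supp_three i⟩)
  · intro U W hU hW hC
    have hmem : (fun v => (U v).projection (W v) (hC v)) ∈
        LinearMap.ker (delta (X k i) (X k i)) := by
      refine (mem_ker _).2 fun a => ?_
      apply LinearMap.ext
      intro x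
      have hx : x ∈ U (D4.s a) ⊔ W (D4.s a) := by
        rw [(hC _).sup_eq_top]; exact Submodule.mem_top
      obtain ⟨y, hy, z, hz, rfl⟩ := Submodule.mem_sup.1 hx
      simp only [LinearMap.comp_apply, map_add]
      rw [Submodule.projection_apply_of_mem_left (hC _) hy,
        Submodule.projection_apply_of_mem_right (hC _) hz,
        Submodule.projection_apply_of_mem_left (hC _) (hU a y hy),
        Submodule.projection_apply_of_mem_right (hC _) (hW a z hz), map_zero]
    let f : Hom (X k i) (X k i) := ⟨fun v => (U v).projection (W v) (hC v), hmem⟩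
    have hff : compHom f f = f := by
      apply Subtype.ext
      funext v
      apply LinearMap.ext
      intro x
      exact Submodule.projection_apply_of_mem_left (hC v) (Submodule.projection_apply_mem (hC v) x)
    have hc : ev f * ev f = ev f := by rw [← ev_comp, hff]
    rcases mul_eq_left₀' hc with h0 | h1
    · left
      have hf0 : f = 0 := ev_inj (h0.trans ev_zero.symm)
      intro v
      rw [Submodule.eq_bot_iff]
      intro x hx
      have h2 : (U v).projection (W v) (hC v) x = 0 := by
        have := congrFun (congrArg Subtype.val hf0) v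
        exact LinearMap.congr_fun this x
      rw [← h2, Submodule.projection_apply_of_mem_left (hC v) hx]
    · right
      have hf1 : f = idHom (X k i) := ev_inj (h1.trans (ev_id i).symm)
      intro v
      rw [Submodule.eq_bot_iff]
      intro x hx
      have h2 : (U v).projection (W v) (hC v) x = x := by
        have := congrFun (congrArg Subtype.val hf1) v
        exact LinearMap.congr_fun this x
      rw [← h2, Submodule.projection_apply_of_mem_right (hC v) hx]
where
  mul_eq_left₀' {c : k} (h : c * c = c) : c = 0 ∨ c = 1 := by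
    by_cases hc : c = 0
    · exact Or.inl hc
    · exact Or.inr (mul_left_cancel₀ hc (by rw [h, mul_one]))

theorem exceptional (i : Fin 4) : Exceptional (X k i) := ⟨indecomposable i, ext_zero i i⟩

theorem le_false_of_lt {i j : Fin 4} (h : j < i) : le i j = false := by
  revert i j; decide

theorem collection : ExceptionalCollection (X k) :=
  ⟨4, Equiv.refl _, fun i => exceptional i, fun i j hij =>
    ⟨⟨fun f g => ev_inj ((ev_eq_zero (le_false_of_lt hij) f).trans
      (ev_eq_zero (le_false_of_lt hij) g).symm)⟩, ext_zero i j⟩⟩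

/-- the arrows of the square -/
def cov (i j : Fin 4) : Bool :=
  (i = 0 ∧ j = 1) ∨ (i = 0 ∧ j = 2) ∨ (i = 1 ∧ j = 3) ∨ (i = 2 ∧ j = 3)

theorem le_of_cov {i j : Fin 4} (h : cov i j = true) : le i j = true := by
  revert i j; decide

theorem ne_of_cov {i j : Fin 4} (h : cov i j = true) : i ≠ j := by
  revert i j; decide

theorem radHom_ne {i j : Fin 4} (h : i ≠ j) : radHom (X k) i j = ⊤ := by
  rw [eq_top_iff]
  intro f _
  exact Submodule.subset_span fun hf => h (eq_of_iso hf)

theorem radHom_self (i : Fin 4) : radHom (X k) i i = ⊥ := by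
  rw [eq_bot_iff]
  refine Submodule.span_le.2 fun f hf => ?_
  have h0 : ev f = 0 := by
    by_contra h
    exact hf (iso_of_ev f h)
  exact ev_inj (h0.trans ev_zero.symm)

/-- no factorisations between `i` and `j` -/
theorem radHom2_bot {i j : Fin 4}
    (h : ∀ l, l ≠ i → l ≠ j → le i l = false ∨ le l j = false) : radHom2 (X k) i j = ⊥ := by
  rw [eq_bot_iff]
  refine Submodule.span_le.2 ?_
  rintro _ ⟨l, f, hf, g, hg, rfl⟩
  have h0 : ev (compHom g f) = 0 := by
    rw [ev_comp]
    by_cases hi : l = i
    · subst hi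
      rw [radHom_self] at hf
      rw [(Submodule.mem_bot k).1 hf, ev_zero, mul_zero]
    · by_cases hj : l = j
      · subst hj
        rw [radHom_self] at hg
        rw [(Submodule.mem_bot k).1 hg, ev_zero, zero_mul]
      · rcases h l hi hj with h1 | h1
        · rw [ev_eq_zero h1 f, mul_zero]
        · rw [ev_eq_zero h1 g, zero_mul]
  exact ev_inj (h0.trans ev_zero.symm)

theorem radHom2_cov {i j : Fin 4} (h : cov i j = true) : radHom2 (X k) i j = ⊥ :=
  radHom2_bot (by revert i j; decide)

theorem radHom2_self (i : Fin 4) : radHom2 (X k) i i = ⊥ :=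
  radHom2_bot (by revert i; decide)

theorem can_span {i j : Fin 4} (hij : le i j = true) (f : Hom (X k i) (X k j)) :
    f = ev f • can hij 1 :=
  ev_inj (by rw [ev_smul, ev_can, mul_one])

theorem radHom2_top : radHom2 (X k) 0 3 = ⊤ := by
  rw [eq_top_iff]
  intro f _
  have h1 : compHom (can (k := k) (i := 1) (j := 3) (by decide) 1)
      (can (i := 0) (j := 1) (by decide) 1) ∈ radHom2 (X k) 0 3 :=
    Submodule.subset_span ⟨1, _, by rw [radHom_ne (by decide)]; exact Submodule.mem_top,
      _, by rw [radHom_ne (by decide)]; exact Submodule.mem_top, rfl⟩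
  have h2 : f = ev f • compHom (can (k := k) (i := 1) (j := 3) (by decide) 1)
      (can (i := 0) (j := 1) (by decide) 1) := by
    apply ev_inj
    rw [ev_smul, ev_comp, ev_can, ev_can, mul_one, mul_one]
  rw [h2]
  exact Submodule.smul_mem _ _ h1

theorem hom_subsingleton {i j : Fin 4} (h : le i j = false) (s t : Submodule k (Hom (X k i) (X k j))) :
    s = t := by
  have : Subsingleton (Hom (X k i) (X k j)) := ⟨fun f g => ev_inj ((ev_eq_zero h f).trans
      (ev_eq_zero h g).symm)⟩
  exact Subsingleton.elim s t

/-- the Hom-Ext quiver: a square -/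
def square : HomExtQuiver (X k) where
  A0 i j := {_x : Unit // cov i j = true}
  A1 _ _ := Empty
  val0 _ _ a := can (le_of_cov a.2) 1
  val1 _ _ b := b.elim
  basis0 i j := by
    refine ⟨fun a => ?_, ?_, ?_⟩
    · rw [radHom_ne (ne_of_cov a.2)]; exact Submodule.mem_top
    · by_cases hle : le i j = true
      · by_cases hc : cov i j = true
        · rw [radHom_ne (ne_of_cov hc), eq_top_iff]
          intro f _
          refine Submodule.mem_sup_left ?_
          rw [can_span hle f]
          exact Submodule.smul_mem _ _ (Submodule.subset_span ⟨⟨(), hc⟩, rfl⟩)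
        · have h1 : i = j ∨ (i = 0 ∧ j = 3) := by revert i j; decide
          have h2 : (Set.range (fun a : {_x : Unit // cov i j = true} =>
              (can (le_of_cov a.2) 1 : Hom (X k i) (X k j)))) = ∅ := by
            rw [Set.range_eq_empty_iff]
            exact ⟨fun a => hc a.2⟩
          rw [h2, Submodule.span_empty, bot_sup_eq]
          rcases h1 with rfl | ⟨rfl, rfl⟩
          · rw [radHom2_self, radHom_self]
          · rw [radHom2_top, radHom_ne (by decide)]
      · exact hom_subsingleton (by simpa using hle) _ _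
    · rw [linearIndependent_subsingleton_index_iff]
      intro a ha
      rw [Submodule.mkQ_apply, Submodule.Quotient.mk_eq_zero, radHom2_cov a.2,
        Submodule.mem_bot] at ha
      have h1 := ev_can (k := k) (le_of_cov a.2) 1
      have ha' : can (k := k) (le_of_cov a.2) 1 = 0 := ha
      rw [ha', ev_zero] at h1
      exact zero_ne_one h1
  basis1 i j := by
    have : Subsingleton (Ext1 (X k i) (X k j)) := ext_zero i j
    exact ⟨fun b => b.elim, Subsingleton.elim _ _, linearIndependent_empty_type⟩

/-- every Hom-Ext quiver contains the arrows of the square -/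
theorem exists_arrow (P : HomExtQuiver (X k)) {i j : Fin 4} (hc : cov i j = true) :
    ∃ a : P.A0 i j, ev (P.val0 i j a) ≠ 0 := by
  by_contra hne
  push Not at hne
  have h1 : Submodule.span k (Set.range (P.val0 i j)) = ⊥ := by
    rw [Submodule.span_eq_bot]
    rintro _ ⟨a, rfl⟩
    exact ev_inj ((hne a).trans ev_zero.symm)
  have h2 := (P.basis0 i j).2.1
  rw [h1, radHom2_cov hc, radHom_ne (ne_of_cov hc), bot_sup_eq] at h2
  have h3 : can (k := k) (le_of_cov hc) 1 ∈ (⊥ : Submodule k (Hom (X k i) (X k j))) := by
    rw [h2]; exact Submodule.mem_top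
  have h4 := ev_can (k := k) (le_of_cov hc) 1
  rw [(Submodule.mem_bot k).1 h3, ev_zero] at h4
  exact zero_ne_one h4

theorem lin_zero {i j : Fin 4} (f g : Hom (X k i) (X k j)) : ev g • f - ev f • g = 0 := by
  rw [sub_eq_zero]
  apply ev_inj
  rw [ev_smul, ev_smul, mul_comm]

/-- if an element of a span of paths has a nonzero coefficient at `w` then `w` is in the span -/
theorem support_aux {V : Type} [Quiver V] {i j : V} (I : Submodule k (Quiver.Path i j →₀ k))
    (T : Set (Quiver.Path i j)) (hT : ∀ w ∈ T, Finsupp.single w 1 ∈ I)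
    {x : Quiver.Path i j →₀ k} (hx : x ∈ Submodule.span k {y | ∃ w ∈ T, y = Finsupp.single w 1})
    (w : Quiver.Path i j) (hw : x w ≠ 0) : Finsupp.single w (1 : k) ∈ I := by
  classical
  induction hx using Submodule.span_induction with
  | mem y hy =>
    obtain ⟨w', hw', rfl⟩ := hy
    by_cases h : w' = w
    · subst h; exact hT _ hw'
    · exact absurd (Finsupp.single_eq_of_ne (Ne.symm h)) hw
  | zero => exact absurd rfl hw
  | add y z _ _ hy hz =>
    by_cases h : y w = 0
    · refine hz fun h' => hw ?_
      rw [Finsupp.add_apply, h, h', add_zero]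
    · exact hy h
  | smul c y _ hy =>
    refine hy fun h' => hw ?_
    rw [Finsupp.smul_apply, h', smul_zero]

/-- **No Hom-Ext quiver of the four representations has monomial relations.** -/
theorem not_monomial (P : HomExtQuiver (X k)) : ¬ P.Monomial := by
  rintro ⟨S, -, hS⟩
  obtain ⟨a, ha⟩ := exists_arrow P (i := 0) (j := 1) (by decide)
  obtain ⟨b, hb⟩ := exists_arrow P (i := 1) (j := 3) (by decide)
  obtain ⟨c, hc⟩ := exists_arrow P (i := 0) (j := 2) (by decide)
  obtain ⟨d, hd⟩ := exists_arrow P (i := 2) (j := 3) (by decide)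
  let v0 : P.Vert := (0 : Fin 4)
  let v1 : P.Vert := (1 : Fin 4)
  let v2 : P.Vert := (2 : Fin 4)
  let v3 : P.Vert := (3 : Fin 4)
  let p : Quiver.Path v0 v3 := Quiver.Path.cons (b := v1) (Quiver.Path.cons (b := v0)
    Quiver.Path.nil (Sum.inl a)) (Sum.inl b)
  let q : Quiver.Path v0 v3 := Quiver.Path.cons (b := v2) (Quiver.Path.cons (b := v0)
    Quiver.Path.nil (Sum.inl c)) (Sum.inl d)
  have hpq : p ≠ q := by
    intro h
    have h1 : v1 = v2 := Quiver.Path.obj_eq_of_cons_eq_cons h
    exact absurd (show (1 : Fin 4) = 2 from h1) (by decide)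
  have hp : ev (P.eval p).1 = ev (P.val0 1 3 b) * ev (P.val0 0 1 a) := by
    change ev (compHom (P.val0 1 3 b) (compHom (P.val0 0 1 a) (idHom _))) = _
    rw [ev_comp, ev_comp, ev_id, mul_one]
  have hq : ev (P.eval q).1 = ev (P.val0 2 3 d) * ev (P.val0 0 2 c) := by
    change ev (compHom (P.val0 2 3 d) (compHom (P.val0 0 2 c) (idHom _))) = _
    rw [ev_comp, ev_comp, ev_id, mul_one]
  have hp0 : ev (P.eval p).1 ≠ 0 := by rw [hp]; exact mul_ne_zero hb ha
  have hq0 : ev (P.eval q).1 ≠ 0 := by rw [hq]; exact mul_ne_zero hd hc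
  let r : Quiver.Path v0 v3 →₀ k := Finsupp.single p (ev (P.eval q).1) -
    Finsupp.single q (ev (P.eval p).1)
  have hr : r ∈ P.R v0 v3 := by
    refine LinearMap.mem_ker.2 ?_
    rw [map_sub, Finsupp.linearCombination_single, Finsupp.linearCombination_single]
    have hsub : Subsingleton (Ext1 (X k v0) (X k v3)) := ext_zero _ _
    refine Prod.ext ?_ (hsub.elim _ _)
    exact lin_zero (i := 0) (j := 3) (P.eval p).1 (P.eval q).1
  have hrp : r p ≠ 0 := by
    have h1 : r p = ev (P.eval q).1 := by
      change (Finsupp.single p (ev (P.eval q).1) - Finsupp.single q (ev (P.eval p).1)) p = _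
      rw [Finsupp.sub_apply, Finsupp.single_eq_same, Finsupp.single_eq_of_ne hpq, sub_zero]
    rw [h1]; exact hq0
  let T : Set (Quiver.Path v0 v3) := {w | ∃ (i' j' : P.Vert) (p : Quiver.Path v0 i')
    (q : Quiver.Path i' j') (r : Quiver.Path j' v3), q ∈ S i' j' ∧ w = p.comp (q.comp r)}
  have hT : P.pathIdeal S v0 v3 = Submodule.span k {y | ∃ w ∈ T, y = Finsupp.single w 1} := by
    unfold HomExtQuiver.pathIdeal
    congr 1
    ext y
    constructor
    · rintro ⟨i', j', p', q', r', h1, h2⟩
      exact ⟨_, ⟨i', j', p', q', r', h1, rfl⟩, h2⟩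
    · rintro ⟨_, ⟨i', j', p', q', r', h1, rfl⟩, h2⟩
      exact ⟨i', j', p', q', r', h1, h2⟩
  have h1 : Finsupp.single p (1 : k) ∈ P.R v0 v3 := by
    refine support_aux (P.R v0 v3) T ?_ (x := r) ?_ p hrp
    · intro w hw
      rw [hS, hT]
      exact Submodule.subset_span ⟨w, hw, rfl⟩
    · rw [← hT, ← hS]; exact hr
  have h2 : P.eval p = 0 := by
    have h3 := LinearMap.mem_ker.1 h1
    rw [Finsupp.linearCombination_single, one_smul] at h3
    exact h3
  apply hp0
  rw [h2]
  exact ev_zero

end Pool.Agent.K7.H93.HE
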