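import Pool.Agent.K7.H93.HE.Thin

/-!
# Four representations of a quiver of type `D₄` whose Hom-Ext quiver is a commutative square
-/

set_option autoImplicit false

namespace Pool.Agent.K7.H93.HE

universe u

variable (k : Type u) [Field k]

/-- the quiver of type `D₄` with centre `0`, all arrows pointing to the centre -/
abbrev D4 : FinQuiver where
  V := Fin 4
  A := Fin 3
  s a := a.succ
  t _ := 0

theorem D4_acyclic : D4.Acyclic :=
  ⟨fun v : Fin 4 => if v = 0 then 1 else 0, fun a : Fin 3 => by
    change (if a.succ = (0 : Fin 4) then 1 else 0) < (if (0 : Fin 4) = 0 then 1 else 0)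
    rw [if_neg (Fin.succ_ne_zero a), if_pos rfl]
    exact Nat.one_pos⟩

/-- the supports of the four representations -/
def supp : Fin 4 → Fin 4 → Bool :=
  ![![true, false, false, true], ![true, false, true, true], ![true, true, false, true],
    ![false, false, false, true]]

/-- the four representations -/
def X (i : Fin 4) : Rep k D4 := thin k D4 (supp i)

/-- the order of the square: `i ≤ j` -/
def le (i j : Fin 4) : Bool := i = j ∨ i = 0 ∨ j = 3

theorem supp_three (i : Fin 4) : supp i 3 = true := by revert i; decide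

variable {k}

/-- the scalar at the vertex `3` -/
def ev {i j : Fin 4} (f : Hom (X k i) (X k j)) : k :=
  co (b := supp i 3) (b' := supp j 3) (f.1 (3 : Fin 4))

theorem ev_comp {i j l : Fin 4} (g : Hom (X k j) (X k l)) (f : Hom (X k i) (X k j)) :
    ev (compHom g f) = ev g * ev f :=
  co_comp (supp_three i) (supp_three j) (supp_three l) (g.1 (3 : Fin 4)) (f.1 (3 : Fin 4))

theorem scalars {i j : Fin 4} (f : Hom (X k i) (X k j)) : ∃ c : Fin 4 → k,
    f.1 = (fam c : C0 (thin k D4 (supp i)) (thin k D4 (supp j))) ∧ c 3 = ev f ∧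
      ∀ a : Fin 3, supp i a.succ = true → supp j 0 = true →
        (if supp j a.succ = true then c a.succ else 0) =
          (if supp i 0 = true then c 0 else 0) := by
  refine ⟨fun v => co (b := supp i v) (b' := supp j v) (f.1 v), eq_fam (Q := D4) f.1, rfl, ?_⟩
  have h := f.2
  have h2 := eq_fam (Q := D4) (S := supp i) (T := supp j) f.1
  have h3 : (fam (fun v => co (b := supp i v) (b' := supp j v) (f.1 v)) :
      C0 (thin k D4 (supp i)) (thin k D4 (supp j))) ∈
        LinearMap.ker (delta (thin k D4 (supp i)) (thin k D4 (supp j))) := by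
    rw [← h2]; exact h
  exact (fam_mem (Q := D4) _).1 h3

theorem supp_aux1 (i j : Fin 4) : supp j 0 = true → supp i 0 = true ∨ i = 3 := by
  revert i j; decide

/-- the scalars at all common vertices agree -/
theorem const_aux {i j : Fin 4} (c : Fin 4 → k)
    (h : ∀ a : Fin 3, supp i a.succ = true → supp j 0 = true →
        (if supp j a.succ = true then c a.succ else 0) =
          (if supp i 0 = true then c 0 else 0)) (v : Fin 4)
    (h1 : supp i v = true) (h2 : supp j v = true) : c v = c 3 := by
  have h3 := h 2
  have h0 := h 0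
  have h1' := h 1
  simp only [Fin.isValue, show Fin.succ (2 : Fin 3) = 3 from rfl, supp_three, if_true] at h3
  simp only [Fin.isValue, show Fin.succ (0 : Fin 3) = 1 from rfl] at h0
  simp only [Fin.isValue, show Fin.succ (1 : Fin 3) = 2 from rfl] at h1'
  fin_cases i <;> fin_cases j <;> fin_cases v <;>
    simp_all [supp]

theorem eq_const {i j : Fin 4} (f : Hom (X k i) (X k j)) :
    f.1 = (fam (fun _ => ev f) : C0 (thin k D4 (supp i)) (thin k D4 (supp j))) := by
  obtain ⟨c, hc, h3, h⟩ := scalars f
  rw [hc]
  funext v
  rw [fam_apply, fam_apply]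
  by_cases h1 : supp i v = true
  · by_cases h2 : supp j v = true
    · rw [const_aux c h v h1 h2, h3]
    · rw [sc_eq_zero_right (by simpa using h2), sc_eq_zero_right (by simpa using h2)]
  · rw [sc_eq_zero_left (by simpa using h1), sc_eq_zero_left (by simpa using h1)]

theorem ev_inj {i j : Fin 4} {f g : Hom (X k i) (X k j)} (h : ev f = ev g) : f = g := by
  apply Subtype.ext
  rw [eq_const f, eq_const g, h]

theorem ev_eq_zero {i j : Fin 4} (hij : le i j = false) (f : Hom (X k i) (X k j)) : ev f = 0 := by
  obtain ⟨c, hc, h3, h⟩ := scalars f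
  rw [← h3]
  have h3 := h 2
  have h0 := h 0
  have h1' := h 1
  simp only [Fin.isValue, show Fin.succ (2 : Fin 3) = 3 from rfl, supp_three, if_true] at h3
  simp only [Fin.isValue, show Fin.succ (0 : Fin 3) = 1 from rfl] at h0
  simp only [Fin.isValue, show Fin.succ (1 : Fin 3) = 2 from rfl] at h1'
  fin_cases i <;> fin_cases j <;> simp_all [supp, le]

theorem can_aux (i j : Fin 4) (hij : le i j = true) (a : Fin 3) (h1 : supp i a.succ = true)
    (h2 : supp j 0 = true) : supp j a.succ = true ∧ supp i 0 = true := by
  revert i j a; decide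

/-- the morphism with scalar `c` -/
def can {i j : Fin 4} (hij : le i j = true) (c : k) : Hom (X k i) (X k j) :=
  ⟨(fam (fun _ => c) : C0 (thin k D4 (supp i)) (thin k D4 (supp j))), by
    refine (fam_mem (Q := D4) _).2 fun a h1 h2 => ?_
    obtain ⟨h3, h4⟩ := can_aux i j hij a h1 h2
    rw [if_pos h3, if_pos h4]⟩

theorem ev_can {i j : Fin 4} (hij : le i j = true) (c : k) : ev (can hij c) = c :=
  co_sc (supp_three i) (supp_three j) c

theorem ev_add {i j : Fin 4} (f g : Hom (X k i) (X k j)) : ev (f + g) = ev f + ev g := by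
  unfold ev co
  rw [dif_pos (supp_three j), dif_pos (supp_three j), dif_pos (supp_three j)]
  rfl

theorem ev_smul {i j : Fin 4} (c : k) (f : Hom (X k i) (X k j)) : ev (c • f) = c * ev f := by
  unfold ev co
  rw [dif_pos (supp_three j), dif_pos (supp_three j)]
  rfl

theorem ev_zero {i j : Fin 4} : ev (0 : Hom (X k i) (X k j)) = 0 := by
  unfold ev co
  rw [dif_pos (supp_three j)]
  rfl

/-- all the extension groups vanish -/
instance ext_zero (i j : Fin 4) : Subsingleton (Ext1 (X k i) (X k j)) := by
  refine ext_subsingleton (Q := D4) (S := supp i) (T := supp j) fun d => ?_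
  let c0 : k := if supp i 1 = true ∧ supp j 1 = false then - d (0 : Fin 3)
    else if supp i 2 = true ∧ supp j 2 = false then - d (1 : Fin 3) else 0
  let e : k := if supp i 0 = true then c0 else 0
  let c : Fin 4 → k := ![c0, d (0 : Fin 3) + e, d (1 : Fin 3) + e, d (2 : Fin 3) + e]
  refine ⟨c, ?_⟩
  have h : ∀ a : Fin 3, supp i a.succ = true → supp j 0 = true →
      (if supp j a.succ = true then c a.succ else 0) - (if supp i 0 = true then c 0 else 0) =
        d a := by
    intro a h1 h2
    simp only [c, e, c0]
    fin_cases i <;> fin_cases j <;> fin_cases a <;> simp_all [supp]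
  exact h

theorem eq_of_iso {i j : Fin 4} {f : Hom (X k i) (X k j)} (hf : IsIso f) : i = j := by
  have h := supp_eq_of_iso (Q := D4) (S := supp i) (T := supp j) f hf
  have h2 : ∀ i j : Fin 4, (∀ v : Fin 4, supp i v = supp j v) → i = j := by decide
  exact h2 i j h

end Pool.Agent.K7.H93.HE
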