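import Pool.Agent.K7.H93.HE.Defs

/-!
# Thin representations: spaces of dimension at most one, given by their support
-/

set_option autoImplicit false

namespace Pool.Agent.K7.H93.HE

universe u

variable {k : Type u} [Field k] {Q : FinQuiver}

/-- the space `k` or `0` -/
abbrev Sp (k : Type u) (b : Bool) : Type u := {_x : Unit // b = true} → k

/-- multiplication by `c`, or zero -/
def sc (b b' : Bool) (c : k) : Sp k b →ₗ[k] Sp k b' where
  toFun x := fun _ => if h : b = true then c * x ⟨(), h⟩ else 0
  map_add' x y := by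
    funext j
    by_cases h : b = true
    · simp only [h, dif_pos, Pi.add_apply, mul_add]
    · simp [h]
  map_smul' r x := by
    funext j
    by_cases h : b = true
    · simp only [h, dif_pos, Pi.smul_apply, smul_eq_mul, RingHom.id_apply]; ring
    · simp [h]

/-- the representation with support `S` and identity maps -/
def thin (k : Type u) [Field k] (Q : FinQuiver) (S : Q.V → Bool) : Rep k Q where
  obj v := Sp k (S v)
  map a := sc (S (Q.s a)) (S (Q.t a)) 1

/-- the scalar of a linear map -/
def co {b b' : Bool} (f : Sp k b →ₗ[k] Sp k b') : k :=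
  if h : b' = true then f (fun _ => 1) ⟨(), h⟩ else 0

theorem eq_sc {b b' : Bool} (f : Sp k b →ₗ[k] Sp k b') : f = sc b b' (co f) := by
  apply LinearMap.ext
  intro x
  funext j
  have hb' : b' = true := j.2
  cases b with
  | false =>
    have hx : x = 0 := by funext i; exact absurd i.2 (by simp)
    rw [hx]
    simp
  | true =>
    have hx : x = x ⟨(), rfl⟩ • (fun _ => (1 : k)) := by
      funext i
      simp only [Pi.smul_apply, smul_eq_mul, mul_one]
    have hj : j = ⟨(), hb'⟩ := rfl
    conv_lhs => rw [hx]
    rw [map_smul, Pi.smul_apply]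
    simp only [sc, co, hb', dif_pos, LinearMap.coe_mk, AddHom.coe_mk, smul_eq_mul]
    rw [mul_comm]

theorem co_sc {b b' : Bool} (hb : b = true) (hb' : b' = true) (c : k) :
    co (sc b b' c) = c := by
  subst hb; subst hb'
  simp [co, sc]

theorem sc_eq_zero_left {b b' : Bool} (hb : b = false) (c : k) : sc b b' c = 0 := by
  subst hb
  apply LinearMap.ext
  intro x
  have hx : x = 0 := by funext i; exact absurd i.2 (by simp)
  rw [hx]; simp

theorem sc_eq_zero_right {b b' : Bool} (hb : b' = false) (c : k) : sc b b' c = 0 := by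
  subst hb
  apply LinearMap.ext
  intro x
  funext i
  exact absurd i.2 (by simp)

theorem sc_zero (b b' : Bool) : sc b b' (0 : k) = 0 := by
  apply LinearMap.ext
  intro x
  funext i
  simp [sc]

theorem sc_comp {b b' b'' : Bool} (hb' : b' = true) (c d : k) :
    sc b' b'' c ∘ₗ sc b b' d = sc b b'' (c * d) := by
  subst hb'
  apply LinearMap.ext
  intro x
  funext i
  by_cases h : b = true
  · simp [sc, h, mul_assoc]
  · simp [sc, h]

theorem sc_inj {b b' : Bool} (hb : b = true) (hb' : b' = true) {c d : k}
    (h : sc b b' c = sc b b' d) : c = d := by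
  rw [← co_sc hb hb' c, h, co_sc hb hb']

theorem co_comp {b b' b'' : Bool} (hb : b = true) (hb' : b' = true) (hb'' : b'' = true)
    (g : Sp k b' →ₗ[k] Sp k b'') (f : Sp k b →ₗ[k] Sp k b') :
    co (g ∘ₗ f) = co g * co f := by
  have h1 := eq_sc f
  have h2 := eq_sc g
  have h3 : co (g ∘ₗ f) = co (sc b' b'' (co g) ∘ₗ sc b b' (co f)) := by rw [← h1, ← h2]
  rw [h3, sc_comp hb', co_sc hb hb'']

theorem sc_smul (b b' : Bool) (c d : k) : c • sc b b' d = sc b b' (c * d) := by
  apply LinearMap.ext
  intro x
  funext i
  by_cases h : b = true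
  · simp [sc, h, mul_assoc]
  · simp [sc, h]

theorem sc_sub (b b' : Bool) (c d : k) : sc b b' c - sc b b' d = sc b b' (c - d) := by
  apply LinearMap.ext
  intro x
  funext i
  by_cases h : b = true
  · simp [sc, h, sub_mul]
  · simp [sc, h]

/-- a family of scalars gives a family of maps between thin representations -/
def fam {S T : Q.V → Bool} (c : Q.V → k) : C0 (thin k Q S) (thin k Q T) :=
  fun v => sc (S v) (T v) (c v)

theorem fam_apply {S T : Q.V → Bool} (c : Q.V → k) (v : Q.V) :
    (fam c : C0 (thin k Q S) (thin k Q T)) v = sc (S v) (T v) (c v) := rfl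

/-- the value of `delta` -/
theorem delta_fam {S T : Q.V → Bool} (c : Q.V → k) (a : Q.A) :
    delta (thin k Q S) (thin k Q T) (fam c) a =
      sc (S (Q.s a)) (T (Q.t a))
        ((if T (Q.s a) = true then c (Q.s a) else 0) -
          (if S (Q.t a) = true then c (Q.t a) else 0)) := by
  change sc (T (Q.s a)) (T (Q.t a)) (1 : k) ∘ₗ sc (S (Q.s a)) (T (Q.s a)) (c (Q.s a)) -
    sc (S (Q.t a)) (T (Q.t a)) (c (Q.t a)) ∘ₗ sc (S (Q.s a)) (S (Q.t a)) (1 : k) = _
  rw [← sc_sub]
  congr 1
  · by_cases h : T (Q.s a) = true
    · rw [if_pos h, sc_comp h, one_mul]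
    · rw [if_neg h, sc_zero, sc_eq_zero_right (b' := T (Q.s a)) (by simpa using h),
        LinearMap.comp_zero]
  · by_cases h : S (Q.t a) = true
    · rw [if_pos h, sc_comp h, mul_one]
    · rw [if_neg h, sc_zero, sc_eq_zero_left (b := S (Q.t a)) (by simpa using h),
        LinearMap.zero_comp]

theorem eq_fam {S T : Q.V → Bool} (f : C0 (thin k Q S) (thin k Q T)) :
    f = fam fun v => co (b := S v) (b' := T v) (f v) := by
  funext v
  exact eq_sc (b := S v) (b' := T v) (f v)

/-- when a family of scalars is a morphism -/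
theorem fam_mem {S T : Q.V → Bool} (c : Q.V → k) :
    (fam c : C0 (thin k Q S) (thin k Q T)) ∈ LinearMap.ker (delta (thin k Q S) (thin k Q T)) ↔
      ∀ a, S (Q.s a) = true → T (Q.t a) = true →
        (if T (Q.s a) = true then c (Q.s a) else 0) =
          (if S (Q.t a) = true then c (Q.t a) else 0) := by
  rw [LinearMap.mem_ker]
  constructor
  · intro h a h1 h2
    have h3 := congrFun h a
    rw [delta_fam] at h3
    have h4 : sc (S (Q.s a)) (T (Q.t a)) ((if T (Q.s a) = true then c (Q.s a) else 0) -
          (if S (Q.t a) = true then c (Q.t a) else 0)) = sc (S (Q.s a)) (T (Q.t a)) (0 : k) := by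
      rw [sc_zero]; exact h3
    exact sub_eq_zero.1 (sc_inj h1 h2 h4)
  · intro h
    funext a
    rw [delta_fam]
    by_cases h1 : S (Q.s a) = true
    · by_cases h2 : T (Q.t a) = true
      · rw [h a h1 h2, sub_self, sc_zero]; rfl
      · rw [sc_eq_zero_right (by simpa using h2)]; rfl
    · rw [sc_eq_zero_left (by simpa using h1)]; rfl

/-- a criterion for the vanishing of the extension group -/
theorem ext_subsingleton {S T : Q.V → Bool}
    (H : ∀ d : Q.A → k, ∃ c : Q.V → k, ∀ a, S (Q.s a) = true → T (Q.t a) = true →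
      (if T (Q.s a) = true then c (Q.s a) else 0) -
          (if S (Q.t a) = true then c (Q.t a) else 0) = d a) :
    Subsingleton (Ext1 (thin k Q S) (thin k Q T)) := by
  change Subsingleton (_ ⧸ LinearMap.range (delta (thin k Q S) (thin k Q T)))
  rw [Submodule.Quotient.subsingleton_iff, LinearMap.range_eq_top]
  intro y
  obtain ⟨c, hc⟩ := H fun a => co (b := S (Q.s a)) (b' := T (Q.t a)) (y a)
  refine ⟨fam c, ?_⟩
  funext a
  rw [delta_fam]
  conv_rhs => rw [eq_sc (b := S (Q.s a)) (b' := T (Q.t a)) (y a)]
  by_cases h1 : S (Q.s a) = true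
  · by_cases h2 : T (Q.t a) = true
    · rw [hc a h1 h2]
    · rw [sc_eq_zero_right (by simpa using h2), sc_eq_zero_right (by simpa using h2)]
  · rw [sc_eq_zero_left (by simpa using h1), sc_eq_zero_left (by simpa using h1)]

/-- an isomorphism of thin representations preserves the support -/
theorem supp_eq_of_iso {S T : Q.V → Bool} (f : Hom (thin k Q S) (thin k Q T)) (hf : IsIso f)
    (v : Q.V) : S v = T v := by
  have h := hf v
  by_contra hne
  cases hS : S v with
  | true =>
    have hT : T v = false := by
      cases hT : T v with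
      | true => exact absurd (hS.trans hT.symm) hne
      | false => rfl
    have hsub : Subsingleton (Sp k (T v)) := ⟨fun x y => by
      funext i; have := i.2; rw [hT] at this; exact absurd this (by simp)⟩
    have h1 : (fun _ => 1 : Sp k (S v)) = (fun _ => 0 : Sp k (S v)) :=
      h.1 (hsub.elim _ _)
    have h2 := congrFun h1 ⟨(), hS⟩
    exact one_ne_zero h2
  | false =>
    have hT : T v = true := by
      cases hT : T v with
      | true => rfl
      | false => exact absurd (hS.trans hT.symm) hne
    have hsub : Subsingleton (Sp k (S v)) := ⟨fun x y => by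
      funext i; have := i.2; rw [hS] at this; exact absurd this (by simp)⟩
    obtain ⟨x, hx⟩ := h.2 (fun _ => 1 : Sp k (T v))
    obtain ⟨y, hy⟩ := h.2 (fun _ => 0 : Sp k (T v))
    have h1 : x = y := hsub.elim _ _
    rw [h1, hy] at hx
    have h2 := congrFun hx ⟨(), hT⟩
    exact zero_ne_one h2

end Pool.Agent.K7.H93.HE
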